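import Pool.Agent.H575.ES.Stm

/-!
# Project ES (helper575): `S_KFX` and `S_DA3`
-/

set_option autoImplicit false

namespace Pool.Agent.H539.ES

open Polynomial NumberField
open Pool.Agent.H575.ES
open Pool.Agent.Q161.ESN

/-- embeddings of finitely many extensions in one Galois extension of `ℚ` -/
theorem kfx : S_KFX := by
  intro F ι _ _ _ L _ _ _
  have hfin : ∀ i, FiniteDimensional F (L i) := fun i =>
    Module.Finite.of_restrictScalars_finite ℚ F (L i)
  let Ω := AlgebraicClosure F
  have : CharZero Ω := algebraRat.charZero Ω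
  have : Algebra.IsAlgebraic ℚ F := Algebra.IsAlgebraic.of_finite ℚ F
  have : Algebra.IsAlgebraic ℚ Ω := Algebra.IsAlgebraic.trans ℚ F Ω
  have : IsAlgClosure ℚ Ω := ⟨inferInstance, inferInstance⟩
  have : Normal ℚ Ω := IsAlgClosure.normal ℚ Ω
  let f : ∀ i, L i →ₐ[F] Ω := fun i => IsAlgClosed.lift
  let g : ∀ i, L i →ₐ[ℚ] Ω := fun i => (f i).restrictScalars ℚ
  let h : F →ₐ[ℚ] Ω := (Algebra.ofId F Ω).restrictScalars ℚ
  let M : IntermediateField ℚ Ω := h.fieldRange ⊔ ⨆ i, (g i).fieldRange
  have h1 : FiniteDimensional ℚ h.fieldRange :=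
    (AlgEquiv.ofInjectiveField h).toLinearEquiv.finiteDimensional
  have h2 : ∀ i, FiniteDimensional ℚ (g i).fieldRange := fun i =>
    (AlgEquiv.ofInjectiveField (g i)).toLinearEquiv.finiteDimensional
  have h3 : FiniteDimensional ℚ (⨆ i, (g i).fieldRange : IntermediateField ℚ Ω) :=
    IntermediateField.finiteDimensional_iSup_of_finite
  have h4 : FiniteDimensional ℚ M := IntermediateField.finiteDimensional_sup _ _
  let N : IntermediateField ℚ Ω := IntermediateField.normalClosure ℚ M Ω
  have hMN : M ≤ N := IntermediateField.le_normalClosure M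
  have h5 : FiniteDimensional ℚ N := normalClosure.is_finiteDimensional ℚ M Ω
  have h6 : Normal ℚ N := normalClosure.normal ℚ M Ω
  have h7 : CharZero N := algebraRat.charZero N
  have hF : ∀ x : F, algebraMap F Ω x ∈ N := fun x =>
    hMN ((le_sup_left : h.fieldRange ≤ M) ⟨x, rfl⟩)
  have hL : ∀ i (x : L i), f i x ∈ N := fun i x =>
    hMN ((le_sup_right : (⨆ i, (g i).fieldRange) ≤ M) ((le_iSup (fun i => (g i).fieldRange) i) ⟨x, rfl⟩))
  let φ : F →+* N := (algebraMap F Ω).codRestrict N hF
  let _ : Algebra F N := φ.toAlgebra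
  have h8 : NumberField N := { to_charZero := h7, to_finiteDimensional := by
                                  have e : (DivisionRing.toRatAlgebra : Algebra ℚ N) =
                                      N.algebra' := Subsingleton.elim _ _
                                  rw [e]
                                  exact h5 }
  refine ⟨N, inferInstance, h8, inferInstance, ?_, fun i => ⟨?_⟩⟩
  · have h9 : IsGalois ℚ N := ⟨⟩
    have e : (DivisionRing.toRatAlgebra : Algebra ℚ N) = N.algebra' := Subsingleton.elim _ _
    rw [e]
    exact h9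
  · exact { (f i).toRingHom.codRestrict N (hL i) with
            commutes' := fun x => Subtype.ext ((f i).commutes x) }

theorem da3 : S_DA3 := by
  intro F L K _ _ _ _ _ _ _ _ _ a b th hirr hth hrank hne
  have : FiniteDimensional F L := Module.Finite.of_restrictScalars_finite ℚ F L
  have : IsGalois F K := IsGalois.tower_top_of_isGalois ℚ F K
  obtain ⟨ι₀⟩ := hne
  have hcard : Fintype.card (L →ₐ[F] K) = 3 := by
    rw [← hrank]
    have h1 := AlgHom.card_of_splits F L K fun x => by
      have h2 := (inferInstance : Normal F K).splits (ι₀ x)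
      rwa [minpoly.algHom_eq ι₀ ι₀.toRingHom.injective] at h2
    exact (Fintype.card_congr (Equiv.refl _)).trans h1
  have hmin : X ^ 3 + C a * X + C b = minpoly F (th : L) := by
    apply minpoly.eq_of_irreducible_of_monic hirr
    · simp only [map_add, map_mul, map_pow, aeval_X, aeval_C]
      exact hth
    · monicity!
  have hdeg : (minpoly F (th : L)).natDegree = 3 := by
    rw [← hmin]
    compute_degree!
  have htop : IntermediateField.adjoin F {(th : L)} = ⊤ := by
    rw [Field.primitive_element_iff_minpoly_natDegree_eq, hdeg, hrank]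
  have halg : Algebra.adjoin F {(th : L)} = ⊤ := by
    have h1 : IsAlgebraic F (th : L) := Algebra.IsAlgebraic.isAlgebraic _
    have h2 := IntermediateField.adjoin_simple_toSubalgebra_of_isAlgebraic h1
    rw [← h2, htop, IntermediateField.top_toSubalgebra]
  refine ⟨⟨?_, fun ι ι' h => ?_⟩, hcard⟩
  · rw [hcard]
    decide
  · refine AlgHom.ext_of_adjoin_eq_top halg fun x hx => ?_
    rw [Set.mem_singleton_iff.1 hx]
    exact h

end Pool.Agent.H539.ES

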